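import Pool.Agent.D0H76.BS.Fmq

/-!
# The formula of Bloch and Soulé for arithmetic surfaces over number rings of unbounded degree

`m ≥ 1` is squarefree with all prime factors `≡ 1 mod 4`, and `K = ℚ(√p : p ∣ m)`, a totally real field of
degree `2 ^ ω(m)`.  For a subfield `k` of `K`, a divisor `d` of `m` and `N ≠ 0` in `𝓞 k` divisible by `2 m`
let `X` be the spectrum of `𝓞 k[1/N][x, y] / (y² - x³ - 2 m d² x)`: an affine elliptic curve over an
open subset of `Spec 𝓞 k`, a regular integral scheme of dimension `2`, smooth over `𝓞 k[1/N]`.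

Theorem: if the matrix `mat m` over the field with two elements is not singular (a condition on `m` only), the
formula of Bloch and Soulé (Q2) holds for all these `X` and all `r ≤ 1`.  For `r = 1` the groups are
`CH¹(X, 0) = Pic(X)`, `CH¹(X, 1) = Γ(X, 𝒪*)` and `0` for the other `i` (problem text, section What is
known): `Pic(X)` is finite, `Γ(X, 𝒪*)` has rank `[k : ℚ] - 1 + #{v ∣ N}`, and this is the order of the zeta
function at `s = 1`.  For `r = 0` it is `CH⁰(X, 0) = ℤ` and a simple pole at `s = 2`; for `r < 0` it is the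
order `0` at `s = 3, 4, …`.  The matrix is not singular for exactly the proportion
`∏_{i ≥ 0} (1 - 2^{-(2i+1)}) = 0.4194...` of all these `m`, ordered by size.

The degree of `k`, the rank of the units and the class number of `k` are not bounded in the theorem.  The
proof of the algebraic part works for all number fields and all `N`: `Pic(X)` is finite if `E(k)` is (fibres
of `X` over the closed points of the base are integral, so that the kernel of `Pic(X) → Pic(E_k)` comes from the
class group of `𝓞 k`), the units of `X` are those of `𝓞 k[1/N]`; the zeta function of `X` is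
`ζ_k(s - 1) / L(E/k, s)` up to the factors at the primes dividing `N`, where the orders of `ζ_k` at `0` and `1`
are those of Hecke's theorem (`Pool/Agent/R362/HkFe.lean`).  The arithmetic input is that `E(k)` is finite and
`L(E/k, 1) ≠ 0` for all these `k` and `d` at once (see `MP_6e2fc3_nt.QuarticTwistForms`).
-/

set_option autoImplicit false

namespace Pool.Agent.Results.MP_666bea_ag.MultiquadraticNumberRings

open NumberField WeierstrassCurve AlgebraicGeometry IsDedekindDomain
open scoped Classical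

/-- The curve `y² = x³ + 2 c x`. -/
def curve {R : Type} [CommRing R] (c : ℕ) : WeierstrassCurve R := ⟨0, 0, 0, 2 * c, 0⟩

section

variable {k : Type} [Field k] [NumberField k]

/-- The curve over `𝓞 k[1/N]`. -/
noncomputable abbrev base (W : WeierstrassCurve (𝓞 k)) (N : 𝓞 k) :
    WeierstrassCurve (Localization.Away N) := W.baseChange (Localization.Away N)

/-- The ring of the affine part of the curve over `𝓞 k[1/N]`. -/
abbrev Coord (W : WeierstrassCurve (𝓞 k)) (N : 𝓞 k) : Type := (base W N).toAffine.CoordinateRing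

/-- The arithmetic surface `X`. -/
noncomputable abbrev surface (W : WeierstrassCurve (𝓞 k)) (N : 𝓞 k) : Scheme.{0} :=
  Spec (CommRingCat.of (Coord W N))

/-- `F` is the zeta function of `S`: it is meromorphic on `ℂ`, and for `Re s > 2` the product of the
`(1 - N(x)^{-s})⁻¹` over the closed points `x` converges unconditionally to `F s`. -/
def IsZeta (S : Scheme.{0}) (F : ℂ → ℂ) : Prop :=
  MeromorphicOn F Set.univ ∧ ∀ s : ℂ, 2 < s.re →
    Multipliable (fun x : {x : S // IsClosed ({x} : Set S)} =>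
      (1 - ((Nat.card (S.residueField x.1) : ℂ) ^ (-s)))⁻¹) ∧
    F s = ∏' x : {x : S // IsClosed ({x} : Set S)},
      (1 - ((Nat.card (S.residueField x.1) : ℂ) ^ (-s)))⁻¹

/-- The order of `F` at `s` is `n`. -/
def HasOrder (F : ℂ → ℂ) (s : ℂ) (n : ℤ) : Prop := meromorphicOrderAt F s = (n : WithTop ℤ)

/-- `Γ(X, 𝒪*) = CH¹(X, 1)` has rank `u`. -/
def UnitRank (W : WeierstrassCurve (𝓞 k)) (N : 𝓞 k) (u : ℕ) : Prop :=
  Module.rank ℤ (Additive (Coord W N)ˣ) = u

/-- `Pic(X) = CH¹(X, 0)` has rank `p`. -/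
def PicRank (W : WeierstrassCurve (𝓞 k)) (N : 𝓞 k) (p : ℕ) : Prop :=
  Module.rank ℤ (Additive (CommRing.Pic (Coord W N))) = p

/-- The formula of Bloch and Soulé for `X` and all `r ≤ 1`: `Γ(X, 𝒪*) = CH¹(X, 1)` and
`Pic(X) = CH¹(X, 0)` have the ranks `u` and `p`, the order at `s = 1` is `u - p` (`r = 1`), the order
at `s = 2` is `-1` (`r = 0`) and the order at `s = 3, 4, …` is `0` (`r < 0`). -/
def BlochSoule (W : WeierstrassCurve (𝓞 k)) (N : 𝓞 k) (u p : ℕ) : Prop :=
  UnitRank W N u ∧ PicRank W N p ∧ ∀ F : ℂ → ℂ, IsZeta (surface W N) F →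
    HasOrder F 1 (u - p) ∧ HasOrder F 2 (-1) ∧ ∀ j : ℕ, 3 ≤ j → HasOrder F j 0

/-- The number of the primes of `k` that divide `N`. -/
noncomputable def numPrimes (N : 𝓞 k) : ℕ := {P : HeightOneSpectrum (𝓞 k) | N ∈ P.asIdeal}.ncard

/-- `X` is an integral scheme, its discriminant is a unit, it has a zeta function, `Pic(X)` is finite, the
formula holds for `r ≤ 1` and the rank of the units is `[k : ℚ] - 1 + #{v ∣ N}`. -/
def Holds (W : WeierstrassCurve (𝓞 k)) (N : 𝓞 k) : Prop :=
  (base W N).IsElliptic ∧ IsDomain (Coord W N) ∧ (∃ F : ℂ → ℂ, IsZeta (surface W N) F) ∧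
    Finite (CommRing.Pic (Coord W N)) ∧ BlochSoule W N (Module.finrank ℚ k - 1 + numPrimes N) 0

end

/-- `m` is squarefree and all its prime factors are `≡ 1 mod 4`. -/
def Adm (m : ℕ) : Prop := Squarefree m ∧ ∀ p ∈ m.primeFactors, p % 4 = 1

/-- `1` if `a` is not a square modulo `p`, and `0` if it is. -/
noncomputable def nonsq (p a : ℕ) : ZMod 2 := if IsSquare (a : ZMod p) then 0 else 1

/-- The matrix over the field with two elements, with rows and columns indexed by the prime factors of
`m`: the entry at `(p, q)` is `nonsq p q` for `p ≠ q`, and the entry at `(p, p)` is the sum of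
`nonsq p 2` and of the `nonsq p l` for all the prime factors `l ≠ p` of `m`. -/
noncomputable def mat (m : ℕ) : Matrix m.primeFactors m.primeFactors (ZMod 2) :=
  Matrix.of fun p q =>
    if p = q then nonsq p 2 + ∑ l ∈ m.primeFactors.erase p, nonsq p l else nonsq p q

/-- `K = ℚ(√p : p ∣ m)`. -/
structure IsMq (m : ℕ) (K : Type) [Field K] [NumberField K] : Prop where
  ex : ∀ p ∈ m.primeFactors, ∃ x : K, x ^ 2 = (p : K)
  gen : IntermediateField.adjoin ℚ {x : K | ∃ p ∈ m.primeFactors, x ^ 2 = (p : K)} = ⊤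

/-- The statement for all the surfaces `y² = x³ + 2 m d² x`, `d ∣ m`, over the rings `𝓞 k[1/N]`, `2 m ∣ N`, for
all the subfields `k` of `K = ℚ(√p : p ∣ m)`. -/
def AllSurfaces (m : ℕ) : Prop := ∀ (K : Type) [Field K] [NumberField K], IsMq m K →
  IsTotallyReal K ∧ Module.finrank ℚ K = 2 ^ m.primeFactors.card ∧
    ∀ (k : IntermediateField ℚ K) (d : ℕ) (N : 𝓞 k), d ∣ m → N ≠ 0 → (2 * m : 𝓞 k) ∣ N →
      Holds (curve (m * d ^ 2)) N

section proof

lemma mq {m : ℕ} {K : Type} [Field K] [NumberField K] (h : IsMq m K) :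
    Pool.Agent.D0H76.BKR.IsMq m K := ⟨h.ex, h.gen⟩

lemma curve_eq {k : Type} [Field k] [NumberField k] (c : ℕ) :
    (curve c : WeierstrassCurve (𝓞 k)) = Pool.Agent.D0H76.BS.WO k c := by
  show (⟨0, 0, 0, 2 * c, 0⟩ : WeierstrassCurve (𝓞 k)) =
    ⟨((0 : ℤ) : 𝓞 k), ((0 : ℤ) : 𝓞 k), ((0 : ℤ) : 𝓞 k), ((2 * c : ℤ) : 𝓞 k), ((0 : ℤ) : 𝓞 k)⟩
  push_cast
  rfl

end proof

/-- **The formula of Bloch and Soulé over number rings of unbounded degree.** -/
theorem result :
    (∀ m : ℕ, Adm m → (mat m).det ≠ 0 → AllSurfaces m) ∧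
    Filter.Tendsto (fun X : ℕ =>
        (((Finset.Icc 1 X).filter fun m => Adm m ∧ (mat m).det ≠ 0).card : ℝ) /
        (((Finset.Icc 1 X).filter fun m => Adm m).card : ℝ)) Filter.atTop
      (nhds (∏' i : ℕ, (1 - (1 / 2 : ℝ) ^ (2 * i + 1)))) := by
  refine ⟨fun m h hd K _ _ hK => ⟨(mq hK).real, (mq hK).deg, fun k d N hdm hN hmN => ?_⟩, ?_⟩
  · rw [curve_eq]
    have hmN' : ((2 * m : ℕ) : 𝓞 k) ∣ N := by
      push_cast
      exact hmN
    obtain ⟨a1, a2, a3, a4, a5⟩ := Pool.Agent.D0H76.BS.final h hd (mq hK) hdm k hN hmN'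
    exact ⟨a1, a2, a3, a4, a5⟩
  · refine Pool.Agent.D0H10.Q4.denQ.congr fun X => ?_
    exact congrArg₂ (fun a b : ℕ => (a : ℝ) / (b : ℝ))
      (congrArg Finset.card (Finset.ext fun m => by rw [Finset.mem_filter, Finset.mem_filter]; rfl)) rfl

end Pool.Agent.Results.MP_666bea_ag.MultiquadraticNumberRings
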