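import Pool.Agent.D0H76.BS.X11

/-!
# The formula of Bloch and Soulé for `X_0(11)` over the integers of abelian fields of degree `2^n`

`E` is the modular curve `X_0(11)`, `y² + y = x³ - x² - 10 x - 20`, an elliptic curve without complex
multiplication.  `m` is squarefree and prime to `22`, the number `a_l(E)` is odd for all primes `l` that divide
`m` (this holds for `l = 3, 5, 23, 31, 37, 59, …`, a set of primes of density one third), and `k` is a subfield
of degree `2^n` of the `m`-th cyclotomic field, for any `n`.  `N ≠ 0` is an element of `𝓞 k` divisible by all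
the primes above `2` and `11`, and `X` is the spectrum of `𝓞 k[1/N][x, y] / (y² + y - x³ + x² + 10 x + 20)`: a
regular integral scheme of dimension `2`, smooth over `𝓞 k[1/N]`.

Theorem: the formula of Bloch and Soulé (Q2) holds for all these `X` and all `r ≤ 1`.  For `r = 1` the groups
are `CH¹(X, 0) = Pic(X)`, `CH¹(X, 1) = Γ(X, 𝒪*)` and `0` for the other `i` (problem text, section What is
known): `Pic(X)` is finite, `Γ(X, 𝒪*)` has the rank `r₁ + r₂ - 1 + #{v ∣ N}` (the rank of `𝓞 k[1/N]ˣ`), and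
this is the order of the zeta function at `s = 1`.  For `r = 0` it is `CH⁰(X, 0) = ℤ` and a simple pole at
`s = 2`; for `r < 0` it is the order `0` at `s = 3, 4, …`.

The same scheme `X_0(11)` is taken over all these rings; the degree, the class number and the rank of the
units of `k` are not bounded.  The zeta function of `X` is `ζ_k(s - 1) / L(E/k, s)` up to the factors at the
primes dividing `N`; that `L(E/k, s)` is entire with `L(E/k, 1) ≠ 0` and that `E(k)` is finite is part of the
starting result `MP_e996df_nt.TwoPartX011`.  New here: the points of a Weierstrass equation over `ℤ` over all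
finite fields of odd characteristic (trace of Frobenius over the extensions of the residue fields of any
number field), the local data at the primes above `2` and `11`, and the assembly with the machinery of
`MultiquadraticNumberRings` (`Pool/Agent/D0H76/BS`, valid for all number fields and all `N`).
-/

set_option autoImplicit false

namespace Pool.Agent.Results.MP_666bea_ag.NonCMAbelianFields

open NumberField WeierstrassCurve AlgebraicGeometry IsDedekindDomain
open scoped Classical

/-- The curve `X_0(11)`, with its minimal equation `y² + y = x³ - x² - 10 x - 20`. -/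
def X11 (R : Type) [CommRing R] : WeierstrassCurve R := ⟨0, -1, 1, -10, -20⟩

/-- The trace of Frobenius `a_l = l + 1 - #X_0(11)(𝔽_l)`. -/
noncomputable def a (l : ℕ) : ℤ :=
  (l : ℤ) - Nat.card {P : ZMod l × ZMod l // (X11 (ZMod l)).toAffine.Equation P.1 P.2}

section

variable {k : Type} [Field k] [NumberField k]

/-- The curve over `𝓞 k[1/N]`. -/
noncomputable abbrev base (N : 𝓞 k) : WeierstrassCurve (Localization.Away N) :=
  (X11 (𝓞 k)).baseChange (Localization.Away N)

/-- The ring `𝓞 k[1/N][x, y] / (y² + y - x³ + x² + 10 x + 20)`. -/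
abbrev Coord (N : 𝓞 k) : Type := (base N).toAffine.CoordinateRing

/-- The arithmetic surface `X`. -/
noncomputable abbrev surface (N : 𝓞 k) : Scheme.{0} := Spec (CommRingCat.of (Coord N))

/-- `F` is the zeta function of `S`: it is meromorphic on `ℂ`, and for `Re s > 2` the product of the
`(1 - N(x)^{-s})⁻¹` over the closed points `x` converges unconditionally to `F s`. -/
def IsZeta (S : Scheme.{0}) (F : ℂ → ℂ) : Prop :=
  MeromorphicOn F Set.univ ∧ ∀ s : ℂ, 2 < s.re →
    Multipliable (fun x : {x : S // IsClosed ({x} : Set S)} =>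
      (1 - ((Nat.card (S.residueField x.1) : ℂ) ^ (-s)))⁻¹) ∧
    F s = ∏' x : {x : S // IsClosed ({x} : Set S)},
      (1 - ((Nat.card (S.residueField x.1) : ℂ) ^ (-s)))⁻¹

/-- The order of `F` at `s` is `n`. -/
def HasOrder (F : ℂ → ℂ) (s : ℂ) (n : ℤ) : Prop := meromorphicOrderAt F s = (n : WithTop ℤ)

/-- `Γ(X, 𝒪*) = CH¹(X, 1)` has rank `u`. -/
def UnitRank (N : 𝓞 k) (u : ℕ) : Prop := Module.rank ℤ (Additive (Coord N)ˣ) = u

/-- `Pic(X) = CH¹(X, 0)` has rank `p`. -/
def PicRank (N : 𝓞 k) (p : ℕ) : Prop := Module.rank ℤ (Additive (CommRing.Pic (Coord N))) = p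

/-- The formula of Bloch and Soulé for `X` and all `r ≤ 1`: `Γ(X, 𝒪*) = CH¹(X, 1)` and
`Pic(X) = CH¹(X, 0)` have the ranks `u` and `p`, the order at `s = 1` is `u - p` (`r = 1`), the order
at `s = 2` is `-1` (`r = 0`) and the order at `s = 3, 4, …` is `0` (`r < 0`). -/
def BlochSoule (N : 𝓞 k) (u p : ℕ) : Prop :=
  UnitRank N u ∧ PicRank N p ∧ ∀ F : ℂ → ℂ, IsZeta (surface N) F →
    HasOrder F 1 (u - p) ∧ HasOrder F 2 (-1) ∧ ∀ j : ℕ, 3 ≤ j → HasOrder F j 0

/-- The number of the primes of `k` that divide `N`. -/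
noncomputable def numPrimes (N : 𝓞 k) : ℕ := {P : HeightOneSpectrum (𝓞 k) | N ∈ P.asIdeal}.ncard

end

/-- **The formula of Bloch and Soulé for `X_0(11)` over the integers of abelian fields of degree `2^n`.** -/
theorem result (m : ℕ) [NeZero m] (hsq : Squarefree m) (hco : m.Coprime 22)
    (hodd : ∀ l : ℕ, l.Prime → l ∣ m → Odd (a l))
    (M : Type) [Field M] [NumberField M] [IsCyclotomicExtension {m} ℚ M]
    (k : IntermediateField ℚ M) (hk : ∃ n : ℕ, Module.finrank ℚ k = 2 ^ n)
    (N : 𝓞 k) (hN : N ≠ 0) (h22 : ∀ P : HeightOneSpectrum (𝓞 k), (22 : 𝓞 k) ∈ P.asIdeal → N ∈ P.asIdeal) :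
    (base N).IsElliptic ∧ IsDomain (Coord N) ∧ (∃ F : ℂ → ℂ, IsZeta (surface N) F) ∧
      Finite (CommRing.Pic (Coord N)) ∧ BlochSoule N (Units.rank k + numPrimes N) 0 := by
  obtain ⟨n, hn⟩ := hk
  have e : X11 (𝓞 k) = Pool.Agent.D0H76.BS.Gn.WG Pool.Agent.Results.MP_e996df_nt.TwoPartX011.E k := by
    show (⟨0, -1, 1, -10, -20⟩ : WeierstrassCurve (𝓞 k)) =
      ⟨((0 : ℤ) : 𝓞 k), ((-1 : ℤ) : 𝓞 k), ((1 : ℤ) : 𝓞 k), ((-10 : ℤ) : 𝓞 k), ((-20 : ℤ) : 𝓞 k)⟩
    push_cast
    rfl
  have ea : ∀ l : ℕ, a l =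
      (l : ℤ) - Pool.Agent.D0H76.BKR.pts Pool.Agent.Results.MP_e996df_nt.TwoPartX011.E (ZMod l) := by
    intro l
    have e' : X11 (ZMod l) =
        Pool.Agent.Results.MP_e996df_nt.TwoPartX011.E.map (Int.castRingHom (ZMod l)) := by
      show (⟨0, -1, 1, -10, -20⟩ : WeierstrassCurve (ZMod l)) =
        ⟨((0 : ℤ) : ZMod l), ((-1 : ℤ) : ZMod l), ((1 : ℤ) : ZMod l), ((-10 : ℤ) : ZMod l),
          ((-20 : ℤ) : ZMod l)⟩
      push_cast
      rfl
    unfold a Pool.Agent.D0H76.BKR.pts
    rw [e']
  obtain ⟨b1, b2, b3, b4, b5⟩ := Pool.Agent.D0H76.BS.XE.main11 m hsq hco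
    (fun l hl hlm => by rw [← ea]; exact hodd l hl hlm) M k n hn hN
    (Pool.Agent.D0H76.BS.XE.exists_pow (by norm_num) h22)
  unfold Coord surface base
  unfold BlochSoule UnitRank PicRank surface Coord base
  rw [e]
  exact ⟨b1, b2, b3, b4, b5⟩

end Pool.Agent.Results.MP_666bea_ag.NonCMAbelianFields
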