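import Pool.Agent.D0H43.BQF.Srf
import Pool.Agent.D0H43.BQ.End
import Pool.Agent.D0H43.MQ.Ov2
import Pool.Agent.D0H10.Q4.Num
import Pool.Agent.D0H70.MQ.Selot
import Pool.Agent.D0H70.MQ.Step
import Pool.Agent.D0H70.MQ.Spl2
import Pool.Agent.D0H41.MQ.Ff2
import Pool.Agent.D0H41.MQ.Locl
import Pool.Agent.D0H43.MQ.Lst

/-!
# The formula of Bloch and Soulé for the surfaces `y² = x³ + D x` over number rings of unbounded degree

`K = ℚ(i)`, and `D` runs through the elements of `𝓞 K = ℤ[i]` of one of the two kinds: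

* `D` is squarefree and not `1` modulo `2` (two thirds of all the squarefree `D`);
* `D = 2 Δ` with `Δ` squarefree and `Δ = 1` modulo `2 + 2 i`.

`F` is any number field generated over `K` by square roots of divisors of `D` that are `1` modulo `2`, `t` is
any such divisor, and `N ≠ 0` is any element of `𝓞 F` divisible by all the primes that divide `2 D`.  Let `X`
be the spectrum of `𝓞 F[1/N][x, y] / (y² - x³ - D t² x)`: an affine elliptic curve over an open subset of
`Spec 𝓞 F`, a regular integral scheme of dimension `2`, smooth over `𝓞 F[1/N]`.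

Theorem.  Let `c = ∏_{i ≥ 0} (1 - 2^{-(2 i + 1)}) = 0.4194...`, and let (*) be: `E_D(K)` is finite and
`Ш(E_D / K)[2^∞] = 0`, for `E_D : y² = x³ + D x`.

* For every `D` of the family with (*) the formula of Bloch and Soulé (Q2) holds for ALL these surfaces (all
  the `F`, `t`, `N`) and all `r ≤ 1`.  For `r = 1` the groups are `CH¹(X, 0) = Pic(X)`,
  `CH¹(X, 1) = Γ(X, 𝒪*)` and `0` for the other `i` (problem text, section What is known): `Pic(X)` is finite,
  `Γ(X, 𝒪*)` has the rank `r₁ + r₂ - 1 + #{v ∣ N}`, and this is the order of the zeta function at `s = 1`.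
  For `r = 0` it is `CH⁰(X, 0) = ℤ` and a simple pole at `s = 2`; for `r < 0` it is the order `0` at
  `s = 3, 4, …`.
* If `D` is squarefree, not `1` modulo `2`, and (*) holds for `D` and `-D`, the same is true with all the
  divisors of `D` prime to `2`, units included, for example over `ℚ(ζ₈)`.
* For `D = 2 Δ` as above, and for the squarefree `D = - i` modulo `2 + 2 i`, (*) implies the same for the
  fields generated by square roots of the `t` and `(1 + i) t` and for the twists by all of these.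
* (*) has the exact proportion `c` in the family and in each of the classes `D = i` modulo `2`, `1 + i ∣ D`,
  `D = 2 Δ`; the `D` that are not `1` modulo `2` with (*) are `2 c / 3 = 0.2796...` of ALL the squarefree `D`,
  and those with (*) for `D` and `-D` are `c / 2`.

If `D` has `n` prime divisors different from `1 + i`, the degrees `[F : K]` are all the powers of two up to
`2 ^ n` (at least): the degree, the class number and the rank of the units are not bounded.  For `F = K`,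
`t = 1`, `N = 2 D` this is the older result `QuarticTwistSurfaces`, which this one replaces.

The arithmetic input is that `L(E_{D t²} / F, s)` is meromorphic with a finite value different from `0` at
`s = 1`, and that `E_{D t²}(F)` is finite, for all the `F` at once (`MP_ae0bd0_nt.QuarticTwistsOverExtensions`:
one matrix over `𝔽₂` for all the twists).  The zeta function of the surface from the meromorphic `L`-function:
helper69 (`D0H69/BS/MerF.lean`); the algebraic part over all number rings (the zeta function of `F` at `0` and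
`1`, the units, the Picard group): helper76 (`D0H76/BS`), after helper17, helper25, helper84.
-/

set_option autoImplicit false

namespace Pool.Agent.Results.MP_666bea_ag.QuarticSurfacesOverExtensions

open NumberField WeierstrassCurve AlgebraicGeometry IsDedekindDomain
open Pool.Agent.TH841.NF.D (Sha)
open scoped Classical

/-- The curve `y² = x³ + D x`. -/
def curve {R : Type} [CommRing R] (D : R) : WeierstrassCurve R := ⟨0, 0, 0, D, 0⟩

section

variable {F : Type} [Field F] [NumberField F]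

/-- The curve over `𝓞 F[1/N]`. -/
noncomputable abbrev base (D N : 𝓞 F) : WeierstrassCurve (Localization.Away N) :=
  (curve D).baseChange (Localization.Away N)

/-- The ring `𝓞 F[1/N][x, y] / (y² - x³ - D x)`. -/
abbrev Coord (D N : 𝓞 F) : Type := (base D N).toAffine.CoordinateRing

/-- The arithmetic surface `X`. -/
noncomputable abbrev surface (D N : 𝓞 F) : Scheme.{0} := Spec (CommRingCat.of (Coord D N))

/-- `Z` is the zeta function of `S`: it is meromorphic on `ℂ`, and for `Re s > 2` the product of the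
`(1 - N(x)^{-s})⁻¹` over the closed points `x` converges unconditionally to `Z s`. -/
def IsZeta (S : Scheme.{0}) (Z : ℂ → ℂ) : Prop :=
  MeromorphicOn Z Set.univ ∧ ∀ s : ℂ, 2 < s.re →
    Multipliable (fun x : {x : S // IsClosed ({x} : Set S)} =>
      (1 - ((Nat.card (S.residueField x.1) : ℂ) ^ (-s)))⁻¹) ∧
    Z s = ∏' x : {x : S // IsClosed ({x} : Set S)},
      (1 - ((Nat.card (S.residueField x.1) : ℂ) ^ (-s)))⁻¹

/-- The order of `Z` at `s` is `n`. -/
def HasOrder (Z : ℂ → ℂ) (s : ℂ) (n : ℤ) : Prop := meromorphicOrderAt Z s = (n : WithTop ℤ)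

/-- `Γ(X, 𝒪*) = CH¹(X, 1)` has rank `u`. -/
def UnitRank (D N : 𝓞 F) (u : ℕ) : Prop := Module.rank ℤ (Additive (Coord D N)ˣ) = u

/-- `Pic(X) = CH¹(X, 0)` has rank `p`. -/
def PicRank (D N : 𝓞 F) (p : ℕ) : Prop := Module.rank ℤ (Additive (CommRing.Pic (Coord D N))) = p

/-- The formula of Bloch and Soulé for `X` and all `r ≤ 1`: `Γ(X, 𝒪*) = CH¹(X, 1)` and
`Pic(X) = CH¹(X, 0)` have the ranks `u` and `p`, the order at `s = 1` is `u - p` (`r = 1`), the order
at `s = 2` is `-1` (`r = 0`) and the order at `s = 3, 4, …` is `0` (`r < 0`). -/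
def BlochSoule (D N : 𝓞 F) (u p : ℕ) : Prop :=
  UnitRank D N u ∧ PicRank D N p ∧ ∀ Z : ℂ → ℂ, IsZeta (surface D N) Z →
    HasOrder Z 1 (u - p) ∧ HasOrder Z 2 (-1) ∧ ∀ m : ℕ, 3 ≤ m → HasOrder Z m 0

/-- The number of the primes of `F` that divide `N`. -/
noncomputable def numPrimes (N : 𝓞 F) : ℕ := {P : HeightOneSpectrum (𝓞 F) | N ∈ P.asIdeal}.ncard

/-- `X` is an integral scheme, its discriminant is a unit, it has a zeta function, `Pic(X)` is finite, the
formula holds for `r ≤ 1` and the rank of the units is `r₁ + r₂ - 1 + #{v ∣ N}`. -/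
def Holds (D N : 𝓞 F) : Prop :=
  (base D N).IsElliptic ∧ IsDomain (Coord D N) ∧ (∃ Z : ℂ → ℂ, IsZeta (surface D N) Z) ∧
    Finite (CommRing.Pic (Coord D N)) ∧ BlochSoule D N (Units.rank F + numPrimes N) 0

end

section defs

variable {K : Type} [Field K] [NumberField K]

/-- `D` is squarefree and not `1` modulo `2`. -/
def NotOneModTwo (D : 𝓞 K) : Prop := Squarefree D ∧ ¬ 2 ∣ D - 1

/-- `D` is squarefree and `D = i` modulo `2` for a square root `i` of `-1`. -/
def OddImaginary (D : 𝓞 K) : Prop := Squarefree D ∧ ∃ i : 𝓞 K, i ^ 2 = -1 ∧ 2 ∣ D - i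

/-- `D` is squarefree and divisible by `1 + i` for a square root `i` of `-1`. -/
def EvenNorm (D : 𝓞 K) : Prop := Squarefree D ∧ ∃ i : 𝓞 K, i ^ 2 = -1 ∧ 1 + i ∣ D

/-- `D = 2 Δ`, `Δ` is squarefree and `Δ = 1` modulo `2 + 2 i` for a square root `i` of `-1`. -/
def TwicePrimary (D : 𝓞 K) : Prop :=
  ∃ Δ : 𝓞 K, Squarefree Δ ∧ (∃ i : 𝓞 K, i ^ 2 = -1 ∧ 2 + 2 * i ∣ Δ - 1) ∧ D = 2 * Δ

/-- The family. -/
def InFamily (D : 𝓞 K) : Prop := NotOneModTwo D ∨ TwicePrimary D

/-- `E_D(K)` is finite and the `2`-primary part of `Ш(E_D / K)` is trivial. -/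
def FiniteAndTrivial (D : 𝓞 K) : Prop :=
  Finite (curve (D : K)).toAffine.Point ∧ ∀ (n : ℕ) (x : Sha (curve (D : K))), 2 ^ n • x = 0 → x = 0

/-- (*) for `D` and for `-D`. -/
def BothSigns (D : 𝓞 K) : Prop := FiniteAndTrivial D ∧ FiniteAndTrivial (-D)

/-- `t` is a divisor of `D` and `1` modulo `2`. -/
def OneDivisor (D t : 𝓞 K) : Prop := t ∣ D ∧ 2 ∣ t - 1

/-- `t` is a divisor of `D` and prime to `2`. -/
def OddDivisor (D t : 𝓞 K) : Prop := t ∣ D ∧ IsCoprime t 2

/-- `t = t'` or `t = (1 + i) t'` for a divisor `t'` of `D` that is `1` modulo `2`. -/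
def ExtendedDivisor (i D t : 𝓞 K) : Prop := ∃ t', OneDivisor D t' ∧ (t = t' ∨ t = (1 + i) * t')

/-- `D = 2 Δ` as in `TwicePrimary`, or `D` is squarefree and `D = - i` modulo `2 + 2 i`. -/
def Linked (i D : 𝓞 K) : Prop := TwicePrimary D ∨ (Squarefree D ∧ 2 + 2 * i ∣ D + i)

/-- `F` is generated over `K` by finitely many square roots of elements `t` with the property `T`. -/
def GeneratedByRoots (F : Type) [Field F] [Algebra K F] (T : 𝓞 K → Prop) : Prop :=
  ∃ (n : ℕ) (x : Fin n → F), (∀ k, ∃ t : 𝓞 K, T t ∧ x k ^ 2 = algebraMap K F (t : K)) ∧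
    IntermediateField.adjoin K (Set.range x) = ⊤

/-- For every number field `F` generated over `K` by square roots of elements with the property `T D`, every
`t` with the property `T D` and every `N ≠ 0` in `𝓞 F` divisible by all the primes that divide `2 D`, the
result holds for the surface `y² = x³ + D t² x` over `𝓞 F[1/N]`. -/
def AllSurfaces (T : 𝓞 K → 𝓞 K → Prop) (D : 𝓞 K) : Prop :=
  ∀ (F : Type) [Field F] [NumberField F] [Algebra K F], GeneratedByRoots F (T D) →
    ∀ t : 𝓞 K, T D t → ∀ N : 𝓞 F, N ≠ 0 → (∃ n : ℕ, 2 * algebraMap (𝓞 K) (𝓞 F) D ∣ N ^ n) →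
      Holds (algebraMap (𝓞 K) (𝓞 F) (D * t ^ 2)) N

/-- The proportion, among the `D` of norm at most `X` with the property `Q`, of the `D` with the
properties `P` and `T`. -/
noncomputable def proportion (P Q T : 𝓞 K → Prop) (X : ℕ) : ℝ :=
  ({D : 𝓞 K | Algebra.norm ℤ D ≤ X ∧ P D ∧ T D}.ncard : ℝ) /
    ({D : 𝓞 K | Algebra.norm ℤ D ≤ X ∧ Q D}.ncard : ℝ)

end defs

/-- `∏_{i ≥ 0} (1 - 2^{-(2 i + 1)})`. -/
noncomputable def c : ℝ := ∏' i : ℕ, (1 - (1 / 2 : ℝ) ^ (2 * i + 1))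

/-- the inputs -/
theorem bm : Pool.Agent.D0H43.MQ.BM where
  step := Pool.Agent.D0H70.MQ.step Pool.Agent.D0H41.MQ.ff2 Pool.Agent.D0H70.MQ.spl2
  locl := Pool.Agent.D0H41.MQ.locl
  ls1 := Pool.Agent.D0H43.MQ.ls1t
  lso := Pool.Agent.D0H43.MQ.lsot Pool.Agent.D0H13.Q4.supl
  selo := Pool.Agent.D0H70.MQ.selot

theorem holds_of {F : Type} [Field F] [NumberField F] {D N : 𝓞 F}
    (h : Pool.Agent.D0H43.BQF.Hld D N) : Holds D N := by
  obtain ⟨h1, h2, h3, h4, h5, h6, h7⟩ := h
  exact ⟨h1, h2, h3, h4, h5, h6, h7⟩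

theorem over_of {K : Type} [Field K] [NumberField K] {i : 𝓞 K} (hi : i ^ 2 = -1) {D : 𝓞 K}
    {T : 𝓞 K → 𝓞 K → Prop} (hT : ∀ t, T D t → t ∣ 2 * D)
    (h : Pool.Agent.D0H43.MQ.Pk D (T D)) : AllSurfaces T D := by
  intro F _ _ _ hF t ht N hN hDN
  obtain ⟨h1, h2, L, l1, l2, l3, l4⟩ := h.rkF bm F hF t ht
  have e : ((algebraMap (𝓞 K) (𝓞 F) (D * t ^ 2) : 𝓞 F) : F) =
      algebraMap K F ((D * t ^ 2 : 𝓞 K) : K) := rfl
  have hD0 : algebraMap (𝓞 K) (𝓞 F) (D * t ^ 2) ≠ 0 := by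
    intro h0
    have h6 : algebraMap K F ((D * t ^ 2 : 𝓞 K) : K) = 0 := by
      rw [← e, h0]
      exact map_zero _
    have h7 := h1.isUnit
    rw [h6] at h7
    apply h7.ne_zero
    have h10 := Pool.Agent.D0H41.MQ.w4_Δ (0 : F)
    exact h10.trans (by ring)
  have hiF : (algebraMap (𝓞 K) (𝓞 F) i) ^ 2 = -1 := by
    rw [← map_pow, hi, map_neg, map_one]
  have hDN' : ∃ n : ℕ, 2 * algebraMap (𝓞 K) (𝓞 F) (D * t ^ 2) ∣ N ^ n := by
    obtain ⟨n, hn⟩ := hDN
    obtain ⟨w, hw⟩ := hT t ht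
    have h8 : (2 * (D * t ^ 2)) ∣ (2 * D) ^ 3 :=
      ⟨w ^ 2, by linear_combination (2 * D * (2 * D + t * w)) * hw⟩
    have h9 := map_dvd (algebraMap (𝓞 K) (𝓞 F)) h8
    have e9 : algebraMap (𝓞 K) (𝓞 F) (2 * (D * t ^ 2)) = 2 * algebraMap (𝓞 K) (𝓞 F) (D * t ^ 2) := by
      rw [map_mul, map_ofNat]
    have e10 : algebraMap (𝓞 K) (𝓞 F) ((2 * D) ^ 3) = (2 * algebraMap (𝓞 K) (𝓞 F) D) ^ 3 := by
      rw [map_pow, map_mul, map_ofNat]
    rw [e9, e10] at h9
    refine ⟨n * 3, h9.trans ?_⟩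
    rw [pow_mul]
    exact pow_dvd_pow_of_dvd hn 3
  exact holds_of (Pool.Agent.D0H43.BQF.srf hiF hD0 hN hDN' (by rw [e]; exact h2) l1 l2 l3
    (fun s hs => by rw [e]; exact l4 s hs))

theorem one_dvd_two {K : Type} [Field K] [NumberField K] {D t : 𝓞 K} (h : t ∣ D) : t ∣ 2 * D :=
  h.mul_left 2

theorem ext_dvd {K : Type} [Field K] [NumberField K] {i D t : 𝓞 K} (hi : i ^ 2 = -1)
    (h : ExtendedDivisor i D t) : t ∣ 2 * D := by
  obtain ⟨t', ⟨⟨w, hw⟩, -⟩, rfl | rfl⟩ := h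
  · exact one_dvd_two ⟨w, hw⟩
  · exact ⟨(1 - i) * w, by rw [hw]; linear_combination (t' * w) * hi⟩

theorem result (K : Type) [Field K] [NumberField K] [IsCyclotomicExtension {4} ℚ K] :
    (∀ D : 𝓞 K, InFamily D → (base D (2 * D)).IsElliptic ∧ IsDomain (Coord D (2 * D)) ∧
      ∃ Z : ℂ → ℂ, IsZeta (surface D (2 * D)) Z) ∧
    (∀ D : 𝓞 K, InFamily D → FiniteAndTrivial D → AllSurfaces OneDivisor D) ∧
    (∀ D : 𝓞 K, NotOneModTwo D → BothSigns D → AllSurfaces OddDivisor D) ∧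
    (∀ D : 𝓞 K, OddImaginary D → FiniteAndTrivial D → BothSigns D) ∧
    (∀ i : 𝓞 K, i ^ 2 = -1 → ∀ D : 𝓞 K, Linked i D → FiniteAndTrivial D →
      AllSurfaces (ExtendedDivisor i) D) ∧
    (∀ P : 𝓞 K → Prop, P = InFamily ∨ P = OddImaginary ∨ P = EvenNorm ∨ P = TwicePrimary ∨
      P = NotOneModTwo → Filter.Tendsto (proportion P P FiniteAndTrivial) Filter.atTop (nhds c)) ∧
    Filter.Tendsto (proportion (K := K) NotOneModTwo Squarefree FiniteAndTrivial) Filter.atTop
      (nhds (2 / 3 * c)) ∧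
    Filter.Tendsto (proportion (K := K) EvenNorm EvenNorm BothSigns) Filter.atTop
      (nhds (1 / 2 * c)) ∧
    Filter.Tendsto (proportion (K := K) NotOneModTwo Squarefree BothSigns) Filter.atTop
      (nhds (1 / 2 * c)) ∧
    (0.4194 : ℝ) ≤ c := by
  obtain ⟨e, he⟩ := Pool.Agent.D0H10.Q4.Rng.exists_e K
  obtain ⟨h1, h2, h3, h4, h5, h6⟩ := Pool.Agent.D0H43.Q4.P.finalR Pool.Agent.D0H43.Q4.P.all6
    Pool.Agent.D0H10.Q4.sqfK K
  obtain ⟨-, j1, -, -, -, j3, -⟩ := Pool.Agent.D0H43.JQ.joint K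
  have k2 := (Pool.Agent.D0H43.Q4.P.all6.mono (S' := Pool.Agent.D0H43.Q4.P.S4) (by decide)).lim
    ⟨(1, 0), by decide⟩ e he Pool.Agent.D0H43.Q4.P.NotOne (Pool.Agent.D0H43.Q4.P.notOneK e)
  have ext : ∀ i : 𝓞 K, i ^ 2 = -1 → ∀ D : 𝓞 K, Linked i D → FiniteAndTrivial D →
      Pool.Agent.D0H43.MQ.Pk D (ExtendedDivisor i D) := by
    intro i hi D hD hT
    refine (Pool.Agent.D0H43.MQ.pkN4 Pool.Agent.D0H10.Q4.bd hi hD hT).mono fun t ht => ?_
    obtain ⟨t', ht', h⟩ := ht
    exact ⟨t', ht'.1, ht'.2, h⟩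
  have hi : (e H385.im1) ^ 2 = -1 := by
    rw [← map_pow, show (H385.im1 : H385.ZI) ^ 2 = -1 by decide, map_neg, map_one]
  refine ⟨fun D hD => ?_, fun D hD hT => ?_, fun D hD hT => ?_, fun D hD hT => ⟨hT, ?_⟩,
    fun i hi D hD hT => ?_, ?_, h6, j1, j3, Pool.Agent.D0H10.Q4.Num.c2_ge⟩
  · obtain ⟨a1, a2, a3, -⟩ := (Pool.Agent.D0H43.BQ.final K).1 D hD
    exact ⟨a1, a2, a3⟩
  · rcases hD with hD | hD
    · exact over_of hi (fun t ht => one_dvd_two ht.1)
        (Pool.Agent.D0H43.MQ.pkN1 Pool.Agent.D0H10.Q4.bd Pool.Agent.D0H43.Q4.P.bo hD hT)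
    · exact over_of hi (fun t ht => one_dvd_two ht.1)
        ((ext _ hi D (Or.inl hD) hT).mono fun t ht => ⟨t, ht, Or.inl rfl⟩)
  · exact over_of hi (fun t ht => one_dvd_two ht.1)
      (Pool.Agent.D0H43.MQ.pkN2 Pool.Agent.D0H10.Q4.bd Pool.Agent.D0H43.Q4.P.bo hD hT.1 hT.2)
  · exact Pool.Agent.D0H43.MQ.resN3 hD hT
  · exact over_of hi (fun t ht => ext_dvd hi ht) (ext i hi D hD hT)
  · rintro P (rfl | rfl | rfl | rfl | rfl)
    · exact h2
    · exact h3
    · exact h4
    · exact h5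
    · exact k2

end Pool.Agent.Results.MP_666bea_ag.QuarticSurfacesOverExtensions
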