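import Mathlib
import Pool.Agent.D0H69.BS.SubF

/-!
# The formula of Bloch and Soulé for the surfaces `y² + D y = x³` over number rings of unbounded degree

`K = ℚ(√-3)`, and `D` runs through the cube-free elements of `𝓞 K` that do not divide `3`, ordered by the norm.
`F` is any number field generated over `K` by cube roots of elements of `K` (of degree `1, 3, 9, ...` over
`K`), `k` is any field of this kind between `K` and `F`, and `N ≠ 0` is any element of `𝓞 k` divisible by all
the primes that divide `3 D`.  Let `X` be the spectrum of `𝓞 k[1/N][x, y] / (y² + D y - x³)`: an affine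
elliptic curve over an open subset of `Spec 𝓞 k`, a regular integral scheme of dimension `2`, smooth over
`𝓞 k[1/N]`.

Theorem.  Let `c = ∏_{i ≥ 0} (1 - 3^{-(2 i + 1)}) = 0.6390...`.  For every `F` and every `x < c ^ [F : K]` at
least the proportion `x` of the `D` of norm at most `X` (for all large `X`) has the property that the formula
of Bloch and Soulé (Q2) holds for all these surfaces (all the `k` and all the `N`) and all `r ≤ 1`.  For
`r = 1` the groups are `CH¹(X, 0) = Pic(X)`, `CH¹(X, 1) = Γ(X, 𝒪*)` and `0` for the other `i` (problem text,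
section What is known): `Pic(X)` is finite, `Γ(X, 𝒪*)` has the rank `r₁ + r₂ - 1 + #{v ∣ N}`, and this is the
order of the zeta function at `s = 1`.  For `r = 0` it is `CH⁰(X, 0) = ℤ` and a simple pole at `s = 2`; for
`r < 0` it is the order `0` at `s = 3, 4, …`.  The same is true in each of the classes of the `D` divisible
exactly `0`, `1`, `2` times by `√-3`.

Criterion: if `F = K(∛d_1, ..., ∛d_n)`, it is enough that for all the products `d = ∏ d_i ^ t_i` the cube-free
representative `D'` of the class of `d D` in `Kˣ / (Kˣ)³` has a curve `y² + D' y = x³` with finitely many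
points over `K` and with no `3`-primary part of the Tate–Shafarevich group.  For `F = K` this holds for
exactly the proportion `c` of the `D`.

The degree, the class number and the rank of the units of `k` are not bounded; the curve is not defined over
`ℚ` in general.  The arithmetic input is that `L(E_D/k, s)` is meromorphic with a finite value
different from `0` at `s = 1`, and that `E_D(k)` is finite, for all the `k` at once (the joint law of the
Selmer groups of the twists, `Pool/Agent/D0H69/JT`).  The algebraic part over all number rings is due to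
helper76 (`Pool/Agent/D0H76/BS`: the zeta function of `k` at `0` and `1`, the units, the Picard group; after
helper17, helper25, helper84).  New modules: `Pool/Agent/D0H69/BS/{MerF, SrfF, SubF}.lean` (the zeta function of
the surface if the `L`-function is only known to be meromorphic; its order at `s = 2` from bounds for the
Euler product on the half-plane of absolute convergence; the subfields by Kummer theory).
-/

set_option autoImplicit false

namespace Pool.Agent.Results.MP_666bea_ag.SurfacesOverKummerExtensions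

open NumberField WeierstrassCurve AlgebraicGeometry IsDedekindDomain
open Pool.Agent.TH841.NF.D (Sha)
open scoped Classical

/-- The curve `y² + D y = x³`. -/
def curve {R : Type} [CommRing R] (D : R) : WeierstrassCurve R := ⟨0, 0, D, 0, 0⟩

section

variable {k : Type} [Field k] [NumberField k]

/-- The curve over `𝓞 k[1/N]`. -/
noncomputable abbrev base (D N : 𝓞 k) : WeierstrassCurve (Localization.Away N) :=
  (curve D).baseChange (Localization.Away N)

/-- The ring `𝓞 k[1/N][x, y] / (y² + D y - x³)`. -/
abbrev Coord (D N : 𝓞 k) : Type := (base D N).toAffine.CoordinateRing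

/-- The arithmetic surface `X`. -/
noncomputable abbrev surface (D N : 𝓞 k) : Scheme.{0} := Spec (CommRingCat.of (Coord D N))

/-- `Z` is the zeta function of `S`: it is meromorphic on `ℂ`, and for `Re s > 2` the product of the
`(1 - N(x)^{-s})⁻¹` over the closed points `x` converges unconditionally to `Z s`. -/
def IsZeta (S : Scheme.{0}) (Z : ℂ → ℂ) : Prop :=
  MeromorphicOn Z Set.univ ∧ ∀ s : ℂ, 2 < s.re →
    Multipliable (fun x : {x : S // IsClosed ({x} : Set S)} =>
      (1 - ((Nat.card (S.residueField x.1) : ℂ) ^ (-s)))⁻¹) ∧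
    Z s = ∏' x : {x : S // IsClosed ({x} : Set S)},
      (1 - ((Nat.card (S.residueField x.1) : ℂ) ^ (-s)))⁻¹

/-- The order of `Z` at `s` is `n`. -/
def HasOrder (Z : ℂ → ℂ) (s : ℂ) (n : ℤ) : Prop := meromorphicOrderAt Z s = (n : WithTop ℤ)

/-- `Γ(X, 𝒪*) = CH¹(X, 1)` has rank `u`. -/
def UnitRank (D N : 𝓞 k) (u : ℕ) : Prop := Module.rank ℤ (Additive (Coord D N)ˣ) = u

/-- `Pic(X) = CH¹(X, 0)` has rank `p`. -/
def PicRank (D N : 𝓞 k) (p : ℕ) : Prop := Module.rank ℤ (Additive (CommRing.Pic (Coord D N))) = p

/-- The formula of Bloch and Soulé for `X` and all `r ≤ 1`: `Γ(X, 𝒪*) = CH¹(X, 1)` and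
`Pic(X) = CH¹(X, 0)` have the ranks `u` and `p`, the order at `s = 1` is `u - p` (`r = 1`), the order
at `s = 2` is `-1` (`r = 0`) and the order at `s = 3, 4, …` is `0` (`r < 0`). -/
def BlochSoule (D N : 𝓞 k) (u p : ℕ) : Prop :=
  UnitRank D N u ∧ PicRank D N p ∧ ∀ Z : ℂ → ℂ, IsZeta (surface D N) Z →
    HasOrder Z 1 (u - p) ∧ HasOrder Z 2 (-1) ∧ ∀ m : ℕ, 3 ≤ m → HasOrder Z m 0

/-- The number of the primes of `k` that divide `N`. -/
noncomputable def numPrimes (N : 𝓞 k) : ℕ := {P : HeightOneSpectrum (𝓞 k) | N ∈ P.asIdeal}.ncard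

/-- `X` is an integral scheme, its discriminant is a unit, it has a zeta function, `Pic(X)` is finite, the
formula holds for `r ≤ 1` and the rank of the units is `r₁ + r₂ - 1 + #{v ∣ N}`. -/
def Holds (D N : 𝓞 k) : Prop :=
  (base D N).IsElliptic ∧ IsDomain (Coord D N) ∧ (∃ Z : ℂ → ℂ, IsZeta (surface D N) Z) ∧
    Finite (CommRing.Pic (Coord D N)) ∧ BlochSoule D N (Units.rank k + numPrimes N) 0

end

/-- `F` is generated over `K` by cube roots of elements of `K`. -/
def ByCubeRoots (K F : Type) [Field K] [Field F] [Algebra K F] : Prop :=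
  ∃ S : Set F, (∀ x ∈ S, ∃ w : K, x ^ 3 = algebraMap K F w) ∧ IntermediateField.adjoin K S = ⊤

/-- The constant `∏_{i ≥ 0} (1 - 3^{-(2 i + 1)}) = 0.6390...`. -/
noncomputable def c : ℝ := ∏' i : ℕ, (1 - (1 / 3 : ℝ) ^ (2 * i + 1))

section

variable {K : Type} [Field K] [NumberField K]

/-- The statement for all the surfaces `y² + D y = x³` over the rings `𝓞 k[1/N]`, where `k` is a field
generated by cube roots between `K` and `F` and all the primes that divide `3 D` divide `N ≠ 0`. -/
def AllSurfaces (F : Type) [Field F] [NumberField F] [Algebra K F] (D : 𝓞 K) : Prop :=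
  ∀ (k : Type) [Field k] [NumberField k] [Algebra K k], (k →ₐ[K] F) → ByCubeRoots K k →
    ∀ N : 𝓞 k, N ≠ 0 → (∃ n : ℕ, 3 * algebraMap (𝓞 K) (𝓞 k) D ∣ N ^ n) →
      Holds (algebraMap (𝓞 K) (𝓞 k) D) N

/-- `D` is cube-free and does not divide `3`: it has a prime divisor different from `√-3`. -/
def InFamily (D : 𝓞 K) : Prop := ¬ D ∣ 3 ∧ ∀ x : 𝓞 K, x ^ 3 ∣ D → IsUnit x

/-- `E_D(K)` is finite and the `3`-primary part of `Ш(E_D / K)` is trivial. -/
def FiniteAndTrivial (D : 𝓞 K) : Prop :=
  Finite (curve (D : K)).toAffine.Point ∧ ∀ (n : ℕ) (x : Sha (curve (D : K))), 3 ^ n • x = 0 → x = 0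

/-- `D` is divisible exactly `a` times by `√-3`. -/
def ExactlyDivisible (a : ℕ) (D : 𝓞 K) : Prop :=
  ∃ l : 𝓞 K, l ^ 2 = -3 ∧ l ^ a ∣ D ∧ ¬ l ^ (a + 1) ∣ D

/-- The number of the `D` of norm at most `X` with the property `P`. -/
noncomputable def count (P : 𝓞 K → Prop) (X : ℕ) : ℝ :=
  ({D : 𝓞 K | Algebra.norm ℤ D ≤ X ∧ P D}.ncard : ℝ)

/-- The proportion of `Q` among the elements of the family with the property `P` tends to `x`. -/
def TendsTo (x : ℝ) (P Q : 𝓞 K → Prop) : Prop :=
  Filter.Tendsto (fun X : ℕ => count (fun D => InFamily D ∧ P D ∧ Q D) X /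
    count (fun D => InFamily D ∧ P D) X) Filter.atTop (nhds x)

/-- For all large `X` at least the proportion `x` of the `D` of norm at most `X` in the family with the
property `P` has the property `Q`. -/
def AtLeast (x : ℝ) (P Q : 𝓞 K → Prop) : Prop :=
  ∀ᶠ X : ℕ in Filter.atTop, x * count (fun D => InFamily D ∧ P D) X ≤
    count (fun D => (InFamily D ∧ P D) ∧ Q D) X

end

/-- For large `X` there are at least `b X` elements of norm at most `X` in the family, `b > 0`, and the
surfaces over `𝓞 K[1/(3D)]` have a zeta function for all `D` in the family. -/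
def Family (K : Type) [Field K] [NumberField K] : Prop :=
  (∃ b : ℝ, 0 < b ∧ ∃ X₀ : ℕ, ∀ X : ℕ, X₀ ≤ X → b * X ≤ count (K := K) InFamily X) ∧
  ∀ D : 𝓞 K, InFamily D → ∃ Z : ℂ → ℂ, IsZeta (surface D (3 * D)) Z

/-- The criterion. -/
def Criterion (K : Type) [Field K] [NumberField K] : Prop :=
  ∀ (F : Type) [Field F] [NumberField F] [Algebra K F] (n : ℕ) (d : Fin n → K) (z : Fin n → F) (D : 𝓞 K),
    (∀ i, z i ^ 3 = algebraMap K F (d i)) → IntermediateField.adjoin K (Set.range z) = ⊤ →
    (∀ i, d i ≠ 0) → InFamily D →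
    (∀ t : Fin n → ZMod 3, ∃ D' : 𝓞 K, InFamily D' ∧
      (∃ y : K, y ≠ 0 ∧ (D' : K) = (∏ i, d i ^ (t i).val) * D * y ^ 3) ∧ FiniteAndTrivial D') →
    AllSurfaces F D

/-- The proportion over `K`. -/
def OverK (K : Type) [Field K] [NumberField K] : Prop :=
  TendsTo (K := K) c (fun _ => True) FiniteAndTrivial ∧
    ∀ a : ℕ, a < 3 → TendsTo (K := K) c (ExactlyDivisible a) FiniteAndTrivial

/-- The main statement: the lower proportion for all the `F`. -/
def OverF (K : Type) [Field K] [NumberField K] : Prop :=
  ∀ (F : Type) [Field F] [NumberField F] [Algebra K F], ByCubeRoots K F →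
    ∀ x : ℝ, x < c ^ Module.finrank K F →
      AtLeast (K := K) x (fun _ => True) (AllSurfaces F) ∧
        ∀ a : ℕ, a < 3 → AtLeast (K := K) x (ExactlyDivisible a) (AllSurfaces F)

section proof

open Pool.Agent.D0H69.BS

theorem holds_of {k : Type} [Field k] [NumberField k] {D N : 𝓞 k} (h : Hld D N) : Holds D N := by
  obtain ⟨h1, h2, h3, h4, h5, h6, h7⟩ := h
  exact ⟨h1, h2, h3, h4, h5, h6, h7⟩

theorem main_thm (K : Type) [Field K] [NumberField K] [IsCyclotomicExtension {3} ℚ K] :
    Family K ∧ Criterion K ∧ OverK K ∧ OverF K ∧ (0.639 : ℝ) < c := by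
  obtain ⟨h1, h2, h3, h4, -⟩ := Pool.Agent.D0H69.BS.final K
  have h6 := (Pool.Agent.D0H69.L0F.finalAll K).2.2.2.2.2
  refine ⟨⟨h1, fun D hD => (h2 D hD).2.2.1⟩, ?_, ⟨?_, ?_⟩, ?_, h6⟩
  · intro F _ _ _ n d z D hz hgen hd hD h
    intro k _ _ _ φ hk N hN hDN
    refine holds_of (srf_sub hd hz ?_ hD (fun t => ?_) φ hk hN hDN)
    · intro S hS hzS
      let T : IntermediateField K F := { S with algebraMap_mem' := hS }
      have hT : T = ⊤ := by
        rw [eq_top_iff, ← hgen, IntermediateField.adjoin_le_iff]
        rintro _ ⟨i, rfl⟩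
        exact hzS i
      rw [eq_top_iff]
      rintro y -
      have hy : y ∈ T := by rw [hT]; trivial
      exact hy
    · exact h t
  · unfold TendsTo count
    simp only [true_and, and_true]
    exact h3
  · intro a ha
    exact h4 a ha
  · intro F _ _ _ hF x hx
    have key : ∀ {P : 𝓞 K → Prop}, Pool.Agent.D0H69.JTL.Cls P → AtLeast (K := K) x P
        (AllSurfaces F) := by
      intro P hP
      exact low_sub hF hP hx (R := AllSurfaces F) fun D hD h k _ _ _ φ hk N hN hDN =>
        holds_of (h k φ hk N hN hDN)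
    exact ⟨key (Or.inl rfl), fun a ha => key (Or.inr ⟨a, ha, rfl⟩)⟩

end proof

/-- **The formula of Bloch and Soulé over number rings of unbounded degree.** -/
theorem result (K : Type) [Field K] [NumberField K] [IsCyclotomicExtension {3} ℚ K] :
    Family K ∧ Criterion K ∧ OverK K ∧ OverF K ∧ (0.639 : ℝ) < c := main_thm K

end Pool.Agent.Results.MP_666bea_ag.SurfacesOverKummerExtensions
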